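import Pool.Agent.H121.ME.Iface
import Pool.Agent.H784.Z987.Hop

/-! Project ME of helper121: the statement `S_hops` (helper164; adapted from helper784's proof of
`S_hop`). -/

set_option autoImplicit false
set_option linter.unusedVariables false

open scoped BigOperators InnerProductSpace Topology
open Filter MeasureTheory

namespace Pool.Agent.H164.ME

open Pool.Agent.Y662.TR (LL dv dv_apply dv_self dv_ne)
open Pool.Agent.H784.Z987.HopL (dl dl_sum dl_nonneg dl_norm dl_zero_or_one)

theorem rpow_add_le' {a b s : ℝ} (ha : 0 ≤ a) (hb : 0 ≤ b) (hs : 0 ≤ s) (hs1 : s ≤ 1) :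
    (a + b) ^ s ≤ a ^ s + b ^ s := by
  have := NNReal.rpow_add_le_add_rpow ⟨a, ha⟩ ⟨b, hb⟩ hs hs1
  exact_mod_cast this

theorem dl_of_ne_zero {ι : Type} {a y : ι} (h : dl a y ≠ 0) : y = a := by
  unfold dl at h
  by_contra hc
  exact h (if_neg hc)

theorem natAbs_step {d : ℕ} (x : Fin d → ℤ) (i : Fin d) (e : ℤ) (he : e.natAbs ≤ 1) :
    ∑ j, (x j).natAbs ≤ (∑ j, ((x + Pi.single i e : Fin d → ℤ) j).natAbs) + 1 := by
  classical
  have h3 := Finset.add_sum_erase (Finset.univ) (fun j => (x j).natAbs) (Finset.mem_univ i)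
  have h4 := Finset.add_sum_erase (Finset.univ)
    (fun j => ((x + Pi.single i e : Fin d → ℤ) j).natAbs) (Finset.mem_univ i)
  have h1 : ∑ j ∈ Finset.univ.erase i, ((x + Pi.single i e : Fin d → ℤ) j).natAbs =
      ∑ j ∈ Finset.univ.erase i, (x j).natAbs := by
    refine Finset.sum_congr rfl fun j hj => ?_
    have : j ≠ i := Finset.ne_of_mem_erase hj
    simp [this]
  have h2 : (x + Pi.single i e : Fin d → ℤ) i = x i + e := by simp
  rw [← h3, ← h4, h1]
  simp only [h2]
  omega

theorem hops : Pool.Agent.H121.ME.S_hops := by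
  intro d F _ φ c K s hs0 hs1 hc hs hK
  classical
  -- the matrix elements
  set ι : (Fin d → ℤ) → F → F → (Fin d → ℤ) × F :=
    fun x f q => (x, f * φ (Multiplicative.ofAdd x) q) with hι
  have hιi : ∀ x f, Function.Injective (ι x f) := by
    intro x f q q' h
    simp only [hι, Prod.mk.injEq, true_and] at h
    exact (φ (Multiplicative.ofAdd x)).injective (mul_left_cancel h)
  set B : (Fin d → ℤ) → F → ((Fin d → ℤ) × F) → ℝ := fun x f y => ∑ i : Fin d,
    (dl ((x + Pi.single i 1, f) : (Fin d → ℤ) × F) y +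
      dl ((x - Pi.single i 1, f) : (Fin d → ℤ) × F) y) with hB
  have h1 : ∀ (y : (Fin d → ℤ) × F) (x : Fin d → ℤ) (f : F), ‖K (dv y) (x, f)‖ ≤
      (2 * d) * dl ((x, f) : (Fin d → ℤ) × F) y + B x f y +
        ‖∑' q : F, ((c q : ℝ) : ℂ) * dv y (ι x f q)‖ := by
    intro y x f
    rw [hK]
    refine (norm_add_le _ _).trans ?_
    apply add_le_add _ le_rfl
    rw [norm_neg]
    refine (norm_sum_le _ _).trans ?_
    have e : (2 * d) * dl ((x, f) : (Fin d → ℤ) × F) y + B x f y = ∑ i : Fin d,
        (2 * dl ((x, f) : (Fin d → ℤ) × F) y + (dl ((x + Pi.single i 1, f) : (Fin d → ℤ) × F) y +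
          dl ((x - Pi.single i 1, f) : (Fin d → ℤ) × F) y)) := by
      rw [Finset.sum_add_distrib, Finset.sum_const, Finset.card_univ, Fintype.card_fin,
        nsmul_eq_mul]
      ring
    rw [e]
    apply Finset.sum_le_sum
    intro i _
    have e1 := dl_norm ((x, f) : (Fin d → ℤ) × F) y
    have e2 := dl_norm ((x + Pi.single i 1, f) : (Fin d → ℤ) × F) y
    have e3 := dl_norm ((x - Pi.single i 1, f) : (Fin d → ℤ) × F) y
    have n1 := norm_add_le (dv y ((x + Pi.single i 1, f) : (Fin d → ℤ) × F) - dv y (x, f))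
      (dv y ((x - Pi.single i 1, f) : (Fin d → ℤ) × F) - dv y (x, f))
    have n2 := norm_sub_le (dv y ((x + Pi.single i 1, f) : (Fin d → ℤ) × F)) (dv y (x, f))
    have n3 := norm_sub_le (dv y ((x - Pi.single i 1, f) : (Fin d → ℤ) × F)) (dv y (x, f))
    rw [e1, e2] at n2
    rw [e1, e3] at n3
    linarith
  constructor
  · rintro ⟨x, f⟩
    -- the diagonal part
    set A : ((Fin d → ℤ) × F) → ℝ := fun y =>
      ((2:ℝ) * d) ^ s * dl ((x, f) : (Fin d → ℤ) × F) y with hA
    have hAs : HasSum A (((2:ℝ) * d) ^ s * 1) := (dl_sum _).mul_left _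
    have hA1 : ∀ y, ((2 * d) * dl ((x, f) : (Fin d → ℤ) × F) y) ^ s = A y := by
      intro y
      rcases dl_zero_or_one ((x, f) : (Fin d → ℤ) × F) y with h | h
      · simp only [hA]
        rw [h, mul_zero, mul_zero, Real.zero_rpow hs0.ne']
      · simp only [hA]
        rw [h, mul_one, mul_one]
    -- the hopping part
    have hBs : HasSum (B x f) (∑ _i : Fin d, (1 + 1 : ℝ)) := by
      apply hasSum_sum
      intro i _
      exact (dl_sum _).add (dl_sum _)
    have hB0 : ∀ y, 0 ≤ B x f y := by
      intro y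
      apply Finset.sum_nonneg
      intro i _
      have h2 := dl_nonneg ((x + Pi.single i 1, f) : (Fin d → ℤ) × F) y
      have h3 := dl_nonneg ((x - Pi.single i 1, f) : (Fin d → ℤ) × F) y
      linarith
    have hB1 : ∀ y, B x f y ^ s ≤ B x f y := by
      intro y
      obtain ⟨n, hn⟩ : ∃ n : ℕ, B x f y = n := by
        have hi : ∀ i : Fin d, ∃ n : ℕ, (dl ((x + Pi.single i 1, f) : (Fin d → ℤ) × F) y +
            dl ((x - Pi.single i 1, f) : (Fin d → ℤ) × F) y) = n := by
          intro i
          rcases dl_zero_or_one ((x + Pi.single i 1, f) : (Fin d → ℤ) × F) y with h2 | h2 <;>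
          rcases dl_zero_or_one ((x - Pi.single i 1, f) : (Fin d → ℤ) × F) y with h3 | h3 <;>
          rw [h2, h3]
          · exact ⟨0, by norm_num⟩
          · exact ⟨1, by norm_num⟩
          · exact ⟨1, by norm_num⟩
          · exact ⟨2, by norm_num⟩
        choose m hm using hi
        refine ⟨∑ i, m i, ?_⟩
        simp only [hB]
        push_cast
        exact Finset.sum_congr rfl fun i _ => hm i
      rw [hn]
      rcases Nat.eq_zero_or_pos n with h | h
      · rw [h, Nat.cast_zero, Real.zero_rpow hs0.ne']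
      · have : (1 : ℝ) ≤ n := by exact_mod_cast h
        calc (n:ℝ) ^ s ≤ (n:ℝ) ^ (1:ℝ) := Real.rpow_le_rpow_of_exponent_le this hs1
          _ = n := Real.rpow_one _
    -- the infinite part
    set G : ((Fin d → ℤ) × F) → ℝ := fun y =>
      ‖∑' q : F, ((c q : ℝ) : ℂ) * dv y (ι x f q)‖ ^ s with hG
    have hG1 : ∀ q, G (ι x f q) = c q ^ s := by
      intro q
      simp only [hG]
      rw [tsum_eq_single q]
      · rw [dv_self, mul_one, Complex.norm_real, Real.norm_eq_abs, abs_of_nonneg (hc q)]
      · intro q' hq'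
        rw [dv_ne (fun h => hq' (hιi x f h)), mul_zero]
    have hG2 : ∀ y, y ∉ Set.range (ι x f) → G y = 0 := by
      intro y hy
      simp only [hG]
      have : ∀ q, ((c q : ℝ) : ℂ) * dv y (ι x f q) = 0 := by
        intro q
        rw [dv_ne (fun h => hy ⟨q, h⟩), mul_zero]
      simp only [this, tsum_zero, norm_zero]
      rw [Real.zero_rpow hs0.ne']
    have hGs : Summable G := by
      rw [← (hιi x f).summable_iff (fun y hy => hG2 y hy)]
      have : G ∘ ι x f = fun q => c q ^ s := funext hG1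
      rw [this]
      exact hs
    have hGt : ∑' y, G y = ∑' q, c q ^ s := by
      rw [← (hιi x f).tsum_eq (f := G)]
      · exact tsum_congr hG1
      · intro y hy
        by_contra hcon
        exact hy (hG2 y hcon)
    have hle : ∀ y, ‖K (dv y) (x, f)‖ ^ s ≤ A y + B x f y + G y := by
      intro y
      have hd0 : (0:ℝ) ≤ (2 * d) * dl ((x, f) : (Fin d → ℤ) × F) y :=
        mul_nonneg (by positivity) (dl_nonneg _ _)
      calc ‖K (dv y) (x, f)‖ ^ s ≤
          ((2 * d) * dl ((x, f) : (Fin d → ℤ) × F) y + B x f y +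
            ‖∑' q : F, ((c q : ℝ) : ℂ) * dv y (ι x f q)‖) ^ s :=
            Real.rpow_le_rpow (norm_nonneg _) (h1 y x f) hs0.le
        _ ≤ ((2 * d) * dl ((x, f) : (Fin d → ℤ) × F) y + B x f y) ^ s +
            ‖∑' q : F, ((c q : ℝ) : ℂ) * dv y (ι x f q)‖ ^ s :=
            rpow_add_le' (add_nonneg hd0 (hB0 y)) (norm_nonneg _) hs0.le hs1
        _ ≤ (((2 * d) * dl ((x, f) : (Fin d → ℤ) × F) y) ^ s + B x f y ^ s) + G y :=
            add_le_add (rpow_add_le' hd0 (hB0 y) hs0.le hs1) le_rfl
        _ ≤ (A y + B x f y) + G y := by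
            rw [hA1 y]
            exact add_le_add (add_le_add le_rfl (hB1 y)) le_rfl
    have hsum : Summable fun y => A y + B x f y + G y :=
      (hAs.summable.add hBs.summable).add hGs
    have hfin : Summable fun y => ‖K (dv y) (x, f)‖ ^ s :=
      Summable.of_nonneg_of_le (fun y => Real.rpow_nonneg (norm_nonneg _) _) hle hsum
    refine ⟨hfin, ?_⟩
    refine (hfin.tsum_le_tsum hle hsum).trans ?_
    rw [(hAs.summable.add hBs.summable).tsum_add hGs, hAs.summable.tsum_add hBs.summable,
      hAs.tsum_eq, hBs.tsum_eq, hGt, Finset.sum_const, Finset.card_univ,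
      Fintype.card_fin, nsmul_eq_mul]
    linarith
  · rintro ⟨x, f⟩ y hne
    show ∑ i, (x i).natAbs ≤ (∑ i, (y.1 i).natAbs) + 1
    by_cases c1 : dl ((x, f) : (Fin d → ℤ) × F) y = 0
    · by_cases c2 : B x f y = 0
      · -- the sum over `q`
        have h2 := h1 y x f
        rw [c1, c2, mul_zero, add_zero, zero_add] at h2
        have h3 : ∑' q : F, ((c q : ℝ) : ℂ) * dv y (ι x f q) ≠ 0 := by
          intro h
          rw [h, norm_zero] at h2
          exact hne (norm_le_zero_iff.mp h2)
        obtain ⟨q, hq⟩ : ∃ q, ι x f q = y := by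
          by_contra hcon
          push Not at hcon
          apply h3
          have : ∀ q, ((c q : ℝ) : ℂ) * dv y (ι x f q) = 0 := by
            intro q
            rw [dv_ne (hcon q), mul_zero]
          simp only [this, tsum_zero]
        rw [← hq]
        exact Nat.le_succ _
      · obtain ⟨i, -, hi⟩ := Finset.exists_ne_zero_of_sum_ne_zero c2
        by_cases c3 : dl ((x + Pi.single i 1, f) : (Fin d → ℤ) × F) y = 0
        · rw [c3, zero_add] at hi
          rw [dl_of_ne_zero hi]
          have := natAbs_step x i (-1) (by norm_num)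
          have e : x - Pi.single i 1 = (x + Pi.single i (-1) : Fin d → ℤ) := by
            rw [sub_eq_add_neg, ← Pi.single_neg]
          rw [e]
          exact this
        · rw [dl_of_ne_zero c3]
          exact natAbs_step x i 1 (by norm_num)
    · rw [dl_of_ne_zero c1]
      exact Nat.le_succ _

end Pool.Agent.H164.ME
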